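import Pool.Agent.L7h17.OC.Stm

/-!
# Project OC: LIN, a real matrix of finite projective order at least three is a rotation
-/

set_option autoImplicit false

namespace Pool.Agent.L7h24.OC

open Matrix Polynomial Pool.Agent.L7h17.OC

/-- a real matrix of order three has a real eigenvector -/
lemma real_eig (T : Matrix (Fin 3) (Fin 3) ℝ) :
    ∃ (lam : ℝ) (e : Fin 3 → ℝ), e ≠ 0 ∧ T *ᵥ e = lam • e := by
  obtain ⟨x, hx⟩ : ∃ x, T.charpoly.eval x = 0 := by
    set p := T.charpoly with hp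
    have hm : p.Monic := T.charpoly_monic
    have hd : p.natDegree = 3 := by
      rw [hp, T.charpoly_natDegree_eq_dim, Fintype.card_fin]
    have h3 : p.coeff 3 = 1 := by
      rw [← hd]
      exact hm.coeff_natDegree
    have he : ∀ x, p.eval x = x ^ 3 + p.coeff 2 * x ^ 2 + p.coeff 1 * x + p.coeff 0 := by
      intro x
      rw [Polynomial.eval_eq_sum_range, hd]
      rw [Finset.sum_range_succ, Finset.sum_range_succ, Finset.sum_range_succ,
        Finset.sum_range_one, h3]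
      ring
    set a := p.coeff 2
    set b := p.coeff 1
    set c := p.coeff 0
    set R := 1 + |a| + |b| + |c| with hR
    have ha := abs_nonneg a
    have hb := abs_nonneg b
    have hc := abs_nonneg c
    have hR1 : 1 ≤ R := by linarith
    have hR2 : R ≤ R ^ 2 := by nlinarith
    have hR3 : 1 ≤ R ^ 2 := hR1.trans hR2
    have e1 : |a| * R ^ 2 + |b| * R ^ 2 + |c| * R ^ 2 = R ^ 3 - R ^ 2 := by
      have : |a| + |b| + |c| = R - 1 := by linarith
      calc |a| * R ^ 2 + |b| * R ^ 2 + |c| * R ^ 2 = (|a| + |b| + |c|) * R ^ 2 := by ring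
        _ = R ^ 3 - R ^ 2 := by rw [this]; ring
    have a1 : |a * R ^ 2| ≤ |a| * R ^ 2 := by
      rw [abs_mul, abs_of_nonneg (by positivity : (0 : ℝ) ≤ R ^ 2)]
    have b1 : |b * R| ≤ |b| * R ^ 2 := by
      rw [abs_mul, abs_of_nonneg (by linarith : (0 : ℝ) ≤ R)]
      exact mul_le_mul_of_nonneg_left hR2 hb
    have c1 : |c| ≤ |c| * R ^ 2 := le_mul_of_one_le_right hc hR3
    rw [abs_le] at a1 b1
    have c2 := le_abs_self c
    have c3 := neg_abs_le c
    have h1 : 0 ≤ p.eval R := by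
      rw [he]
      nlinarith [a1.1, b1.1]
    have h2 : p.eval (-R) ≤ 0 := by
      rw [he]
      have e2 : (-R) ^ 3 + a * (-R) ^ 2 + b * (-R) + c = -R ^ 3 + a * R ^ 2 - b * R + c := by ring
      rw [e2]
      nlinarith [a1.2, b1.1]
    have h4 := intermediate_value_Icc (f := fun x => p.eval x) (by linarith : -R ≤ R)
      (p.continuous.continuousOn)
    obtain ⟨x, -, hx⟩ := h4 ⟨h2, h1⟩
    exact ⟨x, hx⟩
  rw [Matrix.eval_charpoly] at hx
  obtain ⟨e, he, he2⟩ := Matrix.exists_mulVec_eq_zero_iff.2 hx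
  refine ⟨x, e, he, ?_⟩
  rw [Matrix.sub_mulVec, Matrix.scalar_apply, ← Matrix.smul_one_eq_diagonal,
    Matrix.smul_mulVec, Matrix.one_mulVec, sub_eq_zero] at he2
  exact he2.symm

/-- the complexification -/
noncomputable def cpl (S : Matrix (Fin 3) (Fin 3) ℝ) : Matrix (Fin 3) (Fin 3) ℂ :=
  (algebraMap ℝ ℂ).mapMatrix S

lemma cpl_pow (S : Matrix (Fin 3) (Fin 3) ℝ) (k : ℕ) : cpl (S ^ k) = cpl S ^ k :=
  map_pow _ S k

lemma cpl_one : cpl 1 = 1 := map_one _

lemma cpl_inj {S S' : Matrix (Fin 3) (Fin 3) ℝ} (h : cpl S = cpl S') : S = S' := by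
  ext i j
  have h1 := congrFun (congrFun h i) j
  have h2 : ((S i j : ℝ) : ℂ) = ((S' i j : ℝ) : ℂ) := h1
  exact_mod_cast h2

lemma cpl_mulVec (S : Matrix (Fin 3) (Fin 3) ℝ) (v : Fin 3 → ℂ) (i : Fin 3) :
    (cpl S *ᵥ v) i = ∑ j, ((S i j : ℝ) : ℂ) * v j := rfl

lemma cpl_re (S : Matrix (Fin 3) (Fin 3) ℝ) (v : Fin 3 → ℂ) (i : Fin 3) :
    ((cpl S *ᵥ v) i).re = (S *ᵥ fun j => (v j).re) i := by
  rw [cpl_mulVec, Complex.re_sum]
  simp only [Complex.re_ofReal_mul]
  rfl

lemma cpl_im (S : Matrix (Fin 3) (Fin 3) ℝ) (v : Fin 3 → ℂ) (i : Fin 3) :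
    ((cpl S *ᵥ v) i).im = (S *ᵥ fun j => (v j).im) i := by
  rw [cpl_mulVec, Complex.im_sum]
  simp only [Complex.im_ofReal_mul]
  rfl

/-- a matrix of finite order whose square is not one has an eigenvalue which is not real -/
lemma nonreal_eig (S : Matrix (Fin 3) (Fin 3) ℝ) (m : ℕ) (hm : 0 < m) (h1 : S ^ m = 1)
    (h2 : S ^ 2 ≠ 1) :
    ∃ (ω : ℂ) (v : Fin 3 → ℂ), ω.im ≠ 0 ∧ v ≠ 0 ∧ cpl S *ᵥ v = ω • v := by
  classical
  by_contra hcon
  push Not at hcon
  have hunit : ∀ ω : ℂ, ω.im ≠ 0 → IsUnit (aeval (cpl S) (X - C ω)) := by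
    intro ω hω
    rw [Matrix.isUnit_iff_isUnit_det, isUnit_iff_ne_zero]
    intro hdet
    obtain ⟨v, hv, hv2⟩ := Matrix.exists_mulVec_eq_zero_iff.2 hdet
    refine hcon ω v hω hv ?_
    rw [map_sub, aeval_X, aeval_C, Matrix.sub_mulVec, Algebra.algebraMap_eq_smul_one,
      Matrix.smul_mulVec, Matrix.one_mulVec, sub_eq_zero] at hv2
    exact hv2
  have hfac : (X : ℂ[X]) ^ m - 1 = ∏ ζ ∈ nthRootsFinset m (1 : ℂ), (X - C ζ) :=
    X_pow_sub_one_eq_prod hm (Complex.isPrimitiveRoot_exp m hm.ne')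
  have hind : ∀ s : Finset ℂ, (∀ ζ ∈ s, ζ.im ≠ 0) →
      IsUnit (aeval (cpl S) (∏ ζ ∈ s, (X - C ζ))) := by
    intro s
    induction s using Finset.induction_on with
    | empty =>
      intro _
      rw [Finset.prod_empty, map_one]
      exact isUnit_one
    | insert a s ha ih =>
      intro h
      rw [Finset.prod_insert ha, map_mul]
      exact (hunit a (h a (Finset.mem_insert_self _ _))).mul
        (ih fun ζ hζ => h ζ (Finset.mem_insert_of_mem hζ))
  have hAB := Finset.prod_filter_mul_prod_filter_not (nthRootsFinset m (1 : ℂ))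
    (fun z : ℂ => z.im ≠ 0) (fun ζ => (X - C ζ : ℂ[X]))
  rw [← hfac] at hAB
  have h0 : aeval (cpl S) ((X : ℂ[X]) ^ m - 1) = 0 := by
    rw [map_sub, map_pow, aeval_X, map_one, ← cpl_pow, h1, cpl_one, sub_self]
  rw [← hAB, map_mul] at h0
  have hQ := (hind _ fun ζ hζ => (Finset.mem_filter.1 hζ).2).mul_right_eq_zero.1 h0
  have hsub : (nthRootsFinset m (1 : ℂ)).filter (fun z : ℂ => ¬ z.im ≠ 0) ⊆ {1, -1} := by
    intro z hz
    rw [Finset.mem_filter, mem_nthRootsFinset hm] at hz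
    obtain ⟨hz1, hz2⟩ := hz
    have hz3 : z.im = 0 := by simpa using hz2
    have hn : ‖z‖ = 1 := Complex.norm_eq_one_of_pow_eq_one hz1 hm.ne'
    have hre : z.re ^ 2 = 1 := by
      have h3 := Complex.sq_norm z
      rw [hn, Complex.normSq_apply, hz3] at h3
      nlinarith
    rw [Finset.mem_insert, Finset.mem_singleton]
    rcases mul_eq_zero.1 (by linear_combination hre : (z.re - 1) * (z.re + 1) = 0) with h | h
    · left
      exact Complex.ext (by rw [Complex.one_re]; linarith) hz3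
    · right
      exact Complex.ext (by rw [Complex.neg_re, Complex.one_re]; linarith) (by simpa using hz3)
  have hdvd := Finset.prod_dvd_prod_of_subset _ _ (fun ζ => (X - C ζ : ℂ[X])) hsub
  obtain ⟨R, hR⟩ := hdvd
  have hne : (1 : ℂ) ≠ -1 := by
    intro h
    have := congrArg Complex.re h
    norm_num at this
  have h3 : aeval (cpl S) (∏ ζ ∈ ({1, -1} : Finset ℂ), (X - C ζ : ℂ[X])) = 0 := by
    rw [hR, map_mul, hQ, zero_mul]
  have h4 : (∏ ζ ∈ ({1, -1} : Finset ℂ), (X - C ζ : ℂ[X])) = X ^ 2 - 1 := by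
    rw [Finset.prod_pair hne, map_one, map_neg, map_one]
    ring
  rw [h4, map_sub, map_pow, aeval_X, map_one, ← cpl_pow, ← cpl_one, sub_eq_zero] at h3
  exact h2 (cpl_inj h3)

/-- the basis -/
def bas (p q e : Fin 3 → ℝ) : Matrix (Fin 3) (Fin 3) ℝ := Matrix.of fun i => ![p i, q i, e i]

lemma bas_mulVec (p q e x : Fin 3 → ℝ) : bas p q e *ᵥ x = x 0 • p + x 1 • q + x 2 • e := by
  ext i
  simp [bas, Matrix.mulVec, dotProduct, Fin.sum_univ_three]
  ring

lemma mul_bas (S : Matrix (Fin 3) (Fin 3) ℝ) (p q e : Fin 3 → ℝ) :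
    S * bas p q e = bas (S *ᵥ p) (S *ᵥ q) (S *ᵥ e) := by
  ext i j
  fin_cases j <;> simp [bas, Matrix.mul_apply, Matrix.mulVec, dotProduct]

lemma bas_rot (p q e : Fin 3 → ℝ) (θ : ℝ) : bas p q e * Rot θ =
    bas (Real.cos θ • p + Real.sin θ • q) (-Real.sin θ • p + Real.cos θ • q) e := by
  ext i j
  fin_cases j <;> simp [bas, Rot, Matrix.mul_apply, Fin.sum_univ_three] <;> ring

theorem s_LIN : S_LIN := by
  intro T m hord hm3
  obtain ⟨hT, hm0, ⟨c, hc⟩, hk⟩ := hord
  obtain ⟨lam, e, he, hTe⟩ := real_eig T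
  have hdet : T.det ≠ 0 := ((Matrix.isUnit_iff_isUnit_det T).1 hT).ne_zero
  have hlam : lam ≠ 0 := by
    intro h
    rw [h, zero_smul] at hTe
    exact hdet (Matrix.exists_mulVec_eq_zero_iff.1 ⟨e, he, hTe⟩)
  have hpe : ∀ k : ℕ, (T ^ k) *ᵥ e = lam ^ k • e := by
    intro k
    induction k with
    | zero => simp
    | succ k ih =>
      rw [pow_succ, ← Matrix.mulVec_mulVec, hTe, Matrix.mulVec_smul, ih, smul_smul, pow_succ,
        mul_comm]
  have hcl : c = lam ^ m := by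
    have h1 := hpe m
    rw [hc, Matrix.smul_mulVec, Matrix.one_mulVec] at h1
    exact smul_left_injective ℝ he h1
  set S : Matrix (Fin 3) (Fin 3) ℝ := lam⁻¹ • T with hS
  have hTS : T = lam • S := by rw [hS, smul_smul, mul_inv_cancel₀ hlam, one_smul]
  have hSm : S ^ m = 1 := by
    rw [hS, _root_.smul_pow, hc, hcl, smul_smul, ← mul_pow, inv_mul_cancel₀ hlam, one_pow, one_smul]
  have hSk : ∀ k : ℕ, 0 < k → k < m → S ^ k ≠ 1 := by
    intro k h0 h1 h2
    refine hk k h0 h1 ⟨lam ^ k, ?_⟩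
    rw [hTS, _root_.smul_pow, h2]
  have hSe : S *ᵥ e = e := by
    rw [hS, Matrix.smul_mulVec, hTe, smul_smul, inv_mul_cancel₀ hlam, one_smul]
  obtain ⟨ω, v, hω, hv, hSv⟩ := nonreal_eig S m hm0 hSm (hSk 2 (by norm_num) (by omega))
  have hpv : ∀ k : ℕ, (cpl S ^ k) *ᵥ v = ω ^ k • v := by
    intro k
    induction k with
    | zero => simp
    | succ k ih =>
      rw [pow_succ, ← Matrix.mulVec_mulVec, hSv, Matrix.mulVec_smul, ih, smul_smul, pow_succ,
        mul_comm]
  have hωm : ω ^ m = 1 := by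
    have h1 := hpv m
    rw [← cpl_pow, hSm, cpl_one, Matrix.one_mulVec] at h1
    have h2 : (1 : ℂ) • v = ω ^ m • v := by rw [one_smul]; exact h1
    exact (smul_left_injective ℂ hv h2).symm
  have hn : ‖ω‖ = 1 := Complex.norm_eq_one_of_pow_eq_one hωm hm0.ne'
  set θ : ℝ := Complex.arg ω with hθ
  have hexp : Complex.exp (θ * Complex.I) = ω := by
    have h1 := Complex.norm_mul_exp_arg_mul_I ω
    rwa [hn, Complex.ofReal_one, one_mul] at h1
  have hcos : Real.cos θ = ω.re := by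
    rw [← hexp, Complex.exp_ofReal_mul_I_re]
  have hsin : Real.sin θ = ω.im := by
    rw [← hexp, Complex.exp_ofReal_mul_I_im]
  have hexpk : ∀ k : ℕ, Complex.exp (k * θ * Complex.I) = ω ^ k := by
    intro k
    rw [mul_assoc, Complex.exp_nat_mul, hexp]
  set p : Fin 3 → ℝ := fun i => (v i).im with hp
  set q : Fin 3 → ℝ := fun i => (v i).re with hq
  have hSp : S *ᵥ p = Real.cos θ • p + Real.sin θ • q := by
    ext i
    rw [hp, ← cpl_im, hSv]
    simp only [Pi.smul_apply, smul_eq_mul, Pi.add_apply, Complex.mul_im]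
    rw [hcos, hsin]
  have hSq : S *ᵥ q = -Real.sin θ • p + Real.cos θ • q := by
    ext i
    rw [hq, ← cpl_re, hSv]
    simp only [Pi.smul_apply, smul_eq_mul, Pi.add_apply, Complex.mul_re]
    rw [hcos, hsin]
    ring
  -- independence
  have hb : Real.sin θ ≠ 0 := by rw [hsin]; exact hω
  have hpq : ∀ s t : ℝ, s • p + t • q = 0 → s = 0 ∧ t = 0 := by
    intro s t hst
    have h1 : S *ᵥ (s • p + t • q) = 0 := by rw [hst, Matrix.mulVec_zero]
    rw [Matrix.mulVec_add, Matrix.mulVec_smul, Matrix.mulVec_smul, hSp, hSq] at h1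
    have h2 : ∀ i, s * p i + t * q i = 0 := fun i => congrFun hst i
    have h3 : ∀ i, s * (Real.cos θ * p i + Real.sin θ * q i) +
        t * (-Real.sin θ * p i + Real.cos θ * q i) = 0 := fun i => congrFun h1 i
    have h4 : ∀ i, s * q i - t * p i = 0 := by
      intro i
      have h5 : Real.sin θ * (s * q i - t * p i) = 0 := by
        linear_combination h3 i - Real.cos θ * h2 i
      exact (mul_eq_zero.1 h5).resolve_left hb
    by_contra hcon
    have h6 : 0 < s ^ 2 + t ^ 2 := by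
      rcases not_and_or.1 hcon with h | h
      · have := sq_pos_of_ne_zero h
        nlinarith [sq_nonneg t]
      · have := sq_pos_of_ne_zero h
        nlinarith [sq_nonneg s]
    apply hv
    ext i
    have h7 : (s ^ 2 + t ^ 2) * p i = 0 := by linear_combination s * h2 i - t * h4 i
    have h8 : (s ^ 2 + t ^ 2) * q i = 0 := by linear_combination t * h2 i + s * h4 i
    have h9 := (mul_eq_zero.1 h7).resolve_left h6.ne'
    have h10 := (mul_eq_zero.1 h8).resolve_left h6.ne'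
    exact Complex.ext h10 h9
  have hM : IsUnit (bas p q e) := by
    rw [Matrix.isUnit_iff_isUnit_det, isUnit_iff_ne_zero]
    intro hd
    obtain ⟨x, hx, hx2⟩ := Matrix.exists_mulVec_eq_zero_iff.2 hd
    rw [bas_mulVec] at hx2
    have h1 : S *ᵥ (x 0 • p + x 1 • q + x 2 • e) = 0 := by rw [hx2, Matrix.mulVec_zero]
    rw [Matrix.mulVec_add, Matrix.mulVec_add, Matrix.mulVec_smul, Matrix.mulVec_smul,
      Matrix.mulVec_smul, hSp, hSq, hSe] at h1
    have h2 : (x 0 * Real.cos θ - x 1 * Real.sin θ - x 0) • p +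
        (x 0 * Real.sin θ + x 1 * Real.cos θ - x 1) • q = 0 := by
      ext i
      have h3 : x 0 * (Real.cos θ * p i + Real.sin θ * q i) +
        x 1 * (-Real.sin θ * p i + Real.cos θ * q i) + x 2 * e i = 0 := congrFun h1 i
      have h4 : x 0 * p i + x 1 * q i + x 2 * e i = 0 := congrFun hx2 i
      show (x 0 * Real.cos θ - x 1 * Real.sin θ - x 0) * p i +
        (x 0 * Real.sin θ + x 1 * Real.cos θ - x 1) * q i = 0
      linear_combination h3 - h4
    obtain ⟨h3, h4⟩ := hpq _ _ h2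
    have h5 : (Real.cos θ - 1) ^ 2 + Real.sin θ ^ 2 ≠ 0 := by
      have := sq_pos_of_ne_zero hb
      nlinarith [sq_nonneg (Real.cos θ - 1)]
    have h6 : x 0 = 0 := by
      have : ((Real.cos θ - 1) ^ 2 + Real.sin θ ^ 2) * x 0 = 0 := by
        linear_combination (Real.cos θ - 1) * h3 + Real.sin θ * h4
      exact (mul_eq_zero.1 this).resolve_left h5
    have h7 : x 1 = 0 := by
      have : ((Real.cos θ - 1) ^ 2 + Real.sin θ ^ 2) * x 1 = 0 := by
        linear_combination (Real.cos θ - 1) * h4 - Real.sin θ * h3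
      exact (mul_eq_zero.1 this).resolve_left h5
    rw [h6, h7, zero_smul, zero_smul, zero_add, zero_add] at hx2
    have h8 : x 2 = 0 := (smul_eq_zero.1 hx2).resolve_right he
    apply hx
    ext i
    fin_cases i
    · exact h6
    · exact h7
    · exact h8
  refine ⟨bas p q e, θ, lam, hM, hlam, ?_, hm0, ?_, fun k h0 h1 h2 => ?_⟩
  · rw [bas_rot, ← hSp, ← hSq, hTS, Matrix.smul_mul, mul_bas, hSe]
  · rw [hexpk, hωm]
  · rw [hexpk] at h2
    have h3 : cpl (S ^ k) *ᵥ v = v := by rw [cpl_pow, hpv, h2, one_smul]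
    have h4 : (S ^ k) *ᵥ p = p := by
      ext i
      rw [hp, ← cpl_im, h3]
    have h5 : (S ^ k) *ᵥ q = q := by
      ext i
      rw [hq, ← cpl_re, h3]
    have h6 : ∀ k : ℕ, (S ^ k) *ᵥ e = e := by
      intro k
      induction k with
      | zero => simp
      | succ k ih => rw [pow_succ, ← Matrix.mulVec_mulVec, hSe, ih]
    have h7 : S ^ k * bas p q e = 1 * bas p q e := by
      rw [mul_bas, h4, h5, h6, one_mul]
    exact hSk k h0 h1 (hM.mul_right_cancel h7)

end Pool.Agent.L7h24.OC
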